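import Pool.Agent.Q291.HEA.Stm2

/-!
# Job DEC of project HEA: decimation of a cell
-/

namespace Pool.Agent.Q102.HEA.DEC

open Pool.Agent.Q291.HEA

section General

variable {V : Type}

open Classical in
/-- The sum over the spins in `Λ`. -/
noncomputable def S (Λ : Finset V) (f : (V → Bool) → ℝ) (σ : V → Bool) : ℝ :=
  ∑ η : Λ → Bool, f (glue Λ η σ)

/-- `f` depends on the spins in `D` only. -/
def Dep (f : (V → Bool) → ℝ) (D : Set V) : Prop :=
  ∀ σ τ : V → Bool, (∀ v ∈ D, σ v = τ v) → f σ = f τ

open Classical in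
theorem glue_empty (η : (∅ : Finset V) → Bool) (σ : V → Bool) : glue ∅ η σ = σ := by
  funext v
  simp [glue]

open Classical in
theorem S_empty (f : (V → Bool) → ℝ) (σ : V → Bool) : S ∅ f σ = f σ := by
  unfold S
  rw [Fintype.sum_eq_single (fun _ => true)]
  · rw [glue_empty]
  · intro x hx
    exfalso
    apply hx
    funext v
    exact (Finset.notMem_empty _ v.2).elim

open Classical in
/-- Splitting of one coordinate. -/
noncomputable def eqv (v : V) (Λ : Finset V) (hv : v ∉ Λ) :
    ({x // x ∈ insert v Λ} → Bool) ≃ Bool × (Λ → Bool) where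
  toFun η := (η ⟨v, Finset.mem_insert_self v Λ⟩, fun x => η ⟨x.1, Finset.mem_insert_of_mem x.2⟩)
  invFun p := fun x => if h : x.1 ∈ Λ then p.2 ⟨x.1, h⟩ else p.1
  left_inv η := by
    funext x
    by_cases h : x.1 ∈ Λ
    · simp [h]
    · have hx : x = ⟨v, Finset.mem_insert_self v Λ⟩ := by
        apply Subtype.ext
        exact (Finset.mem_insert.mp x.2).resolve_right h
      simp only [h, dite_false]
      rw [hx]
  right_inv p := by
    ext
    · simp [hv]
    · simp

open Classical in
theorem S_insert {v : V} {Λ : Finset V} (hv : v ∉ Λ) (f : (V → Bool) → ℝ) (σ : V → Bool) :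
    S (insert v Λ) f σ = S Λ f (Function.update σ v true) + S Λ f (Function.update σ v false) := by
  have h1 : S (insert v Λ) f σ =
      ∑ p : Bool × (Λ → Bool), f (glue Λ p.2 (Function.update σ v p.1)) := by
    unfold S
    refine Fintype.sum_equiv (eqv v Λ hv) _ _ fun η => ?_
    congr 1
    funext w
    unfold glue eqv
    by_cases hw : w ∈ Λ
    · have hw' : w ∈ insert v Λ := Finset.mem_insert_of_mem hw
      simp [hw]
    · by_cases hwv : w = v
      · subst hwv
        simp [hw]
      · simp [hw, hwv, Function.update_of_ne]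
  rw [h1, Fintype.sum_prod_type, Fintype.sum_bool]
  rfl

open Classical in
theorem S_union {Λ Δ : Finset V} (h : Disjoint Λ Δ) (f : (V → Bool) → ℝ) (σ : V → Bool) :
    S (Λ ∪ Δ) f σ = S Λ (fun τ => S Δ f τ) σ := by
  induction Λ using Finset.induction_on generalizing σ with
  | empty => rw [Finset.empty_union, S_empty]
  | insert v Λ hv ih =>
    rw [Finset.disjoint_insert_left] at h
    rw [Finset.insert_union, S_insert, S_insert hv, ih h.2, ih h.2]
    rw [Finset.mem_union, not_or]
    exact ⟨hv, h.1⟩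

theorem glue_off {Λ : Finset V} (η : Λ → Bool) (σ : V → Bool) {v : V} (hv : v ∉ Λ) :
    glue Λ η σ v = σ v := by
  simp [glue, hv]

theorem S_mul_left {Λ : Finset V} {g f : (V → Bool) → ℝ} {D : Set V} (hg : Dep g D)
    (hD : ∀ v ∈ D, v ∉ Λ) (σ : V → Bool) :
    S Λ (fun τ => g τ * f τ) σ = g σ * S Λ f σ := by
  classical
  unfold S
  rw [Finset.mul_sum]
  refine Finset.sum_congr rfl fun η _ => ?_
  show g (glue Λ η σ) * f (glue Λ η σ) = _
  rw [hg (glue Λ η σ) σ fun v hv => glue_off η σ (hD v hv)]

theorem S_dep {Λ : Finset V} {f : (V → Bool) → ℝ} {D : Set V} (hf : Dep f D) : Dep (S Λ f) D := by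
  classical
  intro σ τ h
  unfold S
  refine Finset.sum_congr rfl fun η _ => ?_
  apply hf
  intro v hv
  by_cases hvL : v ∈ Λ
  · simp [glue, hvL]
  · rw [glue_off η σ hvL, glue_off η τ hvL]
    exact h v hv

open Classical in
theorem S_prod {ι : Type} (P : Finset ι) (Λ : ι → Finset V) (f : ι → (V → Bool) → ℝ)
    (D : ι → Set V) (hf : ∀ i, Dep (f i) (D i)) (hD : ∀ i j, i ≠ j → ∀ v ∈ D i, v ∉ Λ j)
    (hL : ∀ i j, i ≠ j → Disjoint (Λ i) (Λ j)) (σ : V → Bool) :
    S (P.biUnion Λ) (fun τ => ∏ i ∈ P, f i τ) σ = ∏ i ∈ P, S (Λ i) (f i) σ := by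
  induction P using Finset.induction_on generalizing σ with
  | empty =>
    rw [Finset.biUnion_empty, S_empty]
    simp
  | insert i P hi ih =>
    rw [Finset.biUnion_insert, S_union]
    · have h1 : ∀ τ, S (P.biUnion Λ) (fun τ => ∏ j ∈ insert i P, f j τ) τ =
          (∏ j ∈ P, S (Λ j) (f j) τ) * f i τ := by
        intro τ
        have h2 : (fun τ => ∏ j ∈ insert i P, f j τ) = fun τ => f i τ * ∏ j ∈ P, f j τ := by
          funext τ
          rw [Finset.prod_insert hi]
        rw [h2, S_mul_left (hf i), ih, mul_comm]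
        intro v hv hv'
        rw [Finset.mem_biUnion] at hv'
        obtain ⟨j, hj, hv'⟩ := hv'
        exact hD i j (fun h => hi (h ▸ hj)) v hv hv'
      simp only [h1]
      rw [S_mul_left (g := fun τ => ∏ j ∈ P, S (Λ j) (f j) τ) (D := ⋃ j ∈ P, D j),
        Finset.prod_insert hi, mul_comm]
      · intro σ τ h
        refine Finset.prod_congr rfl fun j hj => ?_
        apply S_dep (hf j)
        intro v hv
        exact h v (Set.mem_biUnion hj hv)
      · intro v hv hv'
        rw [Set.mem_iUnion₂] at hv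
        obtain ⟨j, hj, hv⟩ := hv
        exact hD j i (fun h => hi (h ▸ hj)) v hv hv'
    · rw [Finset.disjoint_biUnion_right]
      intro j hj
      exact hL i j (fun h => hi (h ▸ hj))

open Classical in
theorem S_single (v : V) (f : (V → Bool) → ℝ) (σ : V → Bool) :
    S {v} f σ = f (Function.update σ v true) + f (Function.update σ v false) := by
  classical
  have h := S_insert (Finset.notMem_empty v) f σ
  rw [S_empty, S_empty] at h
  rw [← h]
  rfl

end General

theorem sgn_sq (s : Bool) : sgn s = 1 ∨ sgn s = -1 := by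
  cases s
  · right
    simp [sgn]
  · left
    simp [sgn]

theorem dec1 (x y a b : ℝ) (ha : a = 1 ∨ a = -1) (hb : b = 1 ∨ b = -1) :
    Real.exp (x * a + y * b) + Real.exp (-(x * a + y * b)) =
      2 * Real.sqrt (Real.cosh (x + y) * Real.cosh (x - y)) * Real.exp (F x y * (a * b)) := by
  have hc1 := Real.cosh_pos (x + y)
  have hc2 := Real.cosh_pos (x - y)
  set c := Real.cosh (x + y) with hc
  set d := Real.cosh (x - y) with hd
  have h1 : Real.sqrt (c * d) * Real.exp (F x y) = c := by
    have : Real.exp (F x y) = Real.sqrt (c / d) := by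
      unfold F
      rw [Real.sqrt_eq_rpow, Real.rpow_def_of_pos (div_pos hc1 hc2)]
      rw [mul_comm]
    rw [this, ← Real.sqrt_mul (mul_pos hc1 hc2).le]
    rw [show c * d * (c / d) = c ^ 2 by field_simp]
    exact Real.sqrt_sq hc1.le
  have h2 : Real.sqrt (c * d) * Real.exp (-F x y) = d := by
    have : Real.exp (-F x y) = Real.sqrt (d / c) := by
      unfold F
      rw [Real.sqrt_eq_rpow, Real.rpow_def_of_pos (div_pos hc2 hc1)]
      congr 1
      rw [Real.log_div hc1.ne' hc2.ne', Real.log_div hc2.ne' hc1.ne']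
      ring
    rw [this, ← Real.sqrt_mul (mul_pos hc1 hc2).le]
    rw [show c * d * (d / c) = d ^ 2 by field_simp]
    exact Real.sqrt_sq hc2.le
  have h3 : ∀ z : ℝ, Real.exp z + Real.exp (-z) = 2 * Real.cosh z := by
    intro z
    rw [Real.cosh_eq]
    ring
  rw [h3]
  rcases ha with rfl | rfl <;> rcases hb with rfl | rfl
  · rw [show x * 1 + y * 1 = x + y by ring, show F x y * (1 * 1) = F x y by ring, ← hc, mul_assoc,
      h1]
  · rw [show x * 1 + y * (-1) = x - y by ring, show F x y * (1 * (-1)) = -F x y by ring, ← hd,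
      mul_assoc, h2]
  · rw [show x * (-1) + y * 1 = -(x - y) by ring, show F x y * ((-1) * 1) = -F x y by ring,
      Real.cosh_neg, ← hd, mul_assoc, h2]
  · rw [show x * (-1) + y * (-1) = -(x + y) by ring, show F x y * ((-1) * (-1)) = F x y by ring,
      Real.cosh_neg, ← hc, mul_assoc, h1]

/-- The energy of a cell. -/
noncomputable def en {B : ℕ} [NeZero B] {e : ℕ → Bool} (K : Bond B e → ℝ) (n : ℕ) (ω : Bond B e)
    (τ : Site B e → Bool) : ℝ :=
  ∑ᶠ b ∈ cellb n ω, K b * (sgn (τ (lend 0 b)) * sgn (τ (rend 0 b)))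

theorem cell_split {B : ℕ} [NeZero B] {e : ℕ → Bool} (hF : P_HFIN) (hE : P_ENDS) (he : Alt e)
    (K : Bond B e → ℝ) (n : ℕ) (ω : Bond B e) (τ : Site B e → Bool) :
    en K (n + 1) ω τ = ∑ p : Pos B, en K n (upd ω n p) τ := by
  have h0 : cellb (n + 1) ω = ⋃ p : Pos B, cellb n (upd ω n p) := by
    ext b
    rw [(hE he n ω 0).2.2.2.2.1 b, Set.mem_iUnion]
  unfold en
  rw [h0, finsum_mem_iUnion, finsum_eq_sum_of_fintype]
  · intro p q hpq
    rw [Function.onFun, Set.disjoint_left]
    intro b hb hb'
    apply hpq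
    have h1 := hb n le_rfl
    have h2 := hb' n le_rfl
    simp only [upd, Function.update_self] at h1 h2
    rw [← h1, ← h2]
  · intro p
    exact ((hF he).2.2.2.1 n (upd ω n p)).1

theorem en_dep {B : ℕ} [NeZero B] {e : ℕ → Bool} (hE : P_ENDS) (he : Alt e)
    (K : Bond B e → ℝ) (n : ℕ) (ω : Bond B e) :
    Dep (fun τ => Real.exp (en K n ω τ)) (Q291.HEA.inner n ω ∪ {lend n ω, rend n ω}) := by
  intro σ τ h
  simp only
  congr 1
  unfold en
  refine finsum_mem_congr rfl fun b hb => ?_
  obtain ⟨h1, h2⟩ := (hE he n ω 0).2.2.2.2.2.2 b hb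
  rw [h (lend 0 b) (by
    rcases h1 with h1 | h1
    · right; left; exact h1
    · left; exact h1), h (rend 0 b) (by
    rcases h2 with h2 | h2
    · right; right; exact h2
    · left; exact h2)]

theorem dec {B : ℕ} [NeZero B] {e : ℕ → Bool} (hF : P_HFIN) (hE : P_ENDS) (he : Alt e)
    (K : Bond B e → ℝ) (n : ℕ) : ∀ (ω : Bond B e) (Λ : Finset (Site B e)),
    (∀ v, v ∈ Λ ↔ v ∈ Q291.HEA.inner n ω) → ∃ A : ℝ, 0 < A ∧ ∀ σ : Site B e → Bool,
      S Λ (fun τ => Real.exp (en K n ω τ)) σ =
        A * Real.exp (eff K n ω * (sgn (σ (lend n ω)) * sgn (σ (rend n ω)))) := by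
  classical
  induction n with
  | zero =>
    intro ω Λ hΛ
    refine ⟨1, one_pos, fun σ => ?_⟩
    have h0 : Λ = ∅ := by
      rw [Finset.eq_empty_iff_forall_notMem]
      intro v hv
      have := ((hΛ v).mp hv).1
      omega
    rw [h0, S_empty, one_mul]
    congr 1
    unfold en
    have h1 : cellb 0 ω = {ω} := by
      ext b
      rw [Set.mem_singleton_iff]
      constructor
      · intro hb
        apply Subtype.ext
        funext k
        exact hb k (Nat.zero_le k)
      · rintro rfl k _
        rfl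
    rw [h1, finsum_mem_singleton]
    rfl
  | succ n ih =>
    intro ω Λ hΛ
    set Lp : Pos B → Finset (Site B e) := fun p => ((hF he).2.2.2.1 n (upd ω n p)).2.1.toFinset
      with hLp
    have hLm : ∀ p v, v ∈ Lp p ↔ v ∈ Q291.HEA.inner n (upd ω n p) := fun p v => Set.Finite.mem_toFinset _
    have hA := fun p => ih (upd ω n p) (Lp p) (hLm p)
    choose A hA0 hA using hA
    set M : Fin B → Finset (Site B e) := fun i => {mid n i ω} with hM
    have hΛ2 : Λ = (Finset.univ.biUnion M) ∪ (Finset.univ.biUnion Lp) := by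
      ext v
      rw [hΛ, (hE he n ω 0).2.2.2.2.2.1 v, Finset.mem_union, Finset.mem_biUnion,
        Finset.mem_biUnion]
      constructor
      · rintro (⟨j, hj⟩ | ⟨p, hp⟩)
        · exact Or.inl ⟨j, Finset.mem_univ _, by rw [hM]; simp [hj]⟩
        · exact Or.inr ⟨p, Finset.mem_univ _, (hLm p v).mpr hp⟩
      · rintro (⟨j, _, hj⟩ | ⟨p, _, hp⟩)
        · exact Or.inl ⟨j, by rw [hM] at hj; simpa using hj⟩
        · exact Or.inr ⟨p, (hLm p v).mp hp⟩
    have hmidlev : ∀ i, (mid n i ω).1.1 = n := fun i => rfl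
    have hmidnot : ∀ i p, mid n i ω ∉ Q291.HEA.inner n (upd ω n p) := by
      intro i p h
      have := h.1
      rw [hmidlev] at this
      omega
    have hmidinj : ∀ i j, mid n i ω = mid n j ω → i = j := by
      intro i j h
      have := congrArg (fun v : Site B e => v.1.2.1) h
      exact this
    have hsub : ∀ p v, v ∈ Q291.HEA.inner n (upd ω n p) → v ∈ Q291.HEA.inner (n + 1) ω := by
      intro p v hv
      rw [(hE he n ω 0).2.2.2.2.2.1 v]
      exact Or.inr ⟨p, hv⟩
    have hmidin : ∀ i, mid n i ω ∈ Q291.HEA.inner (n + 1) ω := by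
      intro i
      rw [(hE he n ω 0).2.2.2.2.2.1]
      exact Or.inl ⟨i, rfl⟩
    obtain ⟨-, -, hl, hr, -⟩ := (hF he).2.2.2.1 (n + 1) ω
    have hdisjp : ∀ p q, p ≠ q → ∀ v, v ∈ Q291.HEA.inner n (upd ω n p) → v ∉ Q291.HEA.inner n (upd ω n q) := by
      intro p q hpq v hv hv'
      apply hpq
      have h1 := hv.2 n le_rfl
      have h2 := hv'.2 n le_rfl
      simp only [upd, Function.update_self] at h1 h2
      rw [← h1, ← h2]
    -- the ends of the subcells
    have hlend : ∀ p q, lend n (upd ω n p) ∉ Q291.HEA.inner n (upd ω n q) := by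
      rintro ⟨i, s⟩ q
      obtain ⟨h1, h2, h3, h4, -⟩ := hE he n ω i
      cases s
      · rw [h1]
        exact fun h => hl (hsub q _ h)
      · rw [h3]
        exact hmidnot i q
    have hrend : ∀ p q, rend n (upd ω n p) ∉ Q291.HEA.inner n (upd ω n q) := by
      rintro ⟨i, s⟩ q
      obtain ⟨h1, h2, h3, h4, -⟩ := hE he n ω i
      cases s
      · rw [h2]
        exact hmidnot i q
      · rw [h4]
        exact fun h => hr (hsub q _ h)
    set x : Fin B → ℝ := fun i => eff K n (upd ω n (i, false)) with hx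
    set y : Fin B → ℝ := fun i => eff K n (upd ω n (i, true)) with hy
    refine ⟨∏ i : Fin B, (A (i, false) * A (i, true) *
      (2 * Real.sqrt (Real.cosh (x i + y i) * Real.cosh (x i - y i)))), ?_, ?_⟩
    · refine Finset.prod_pos fun i _ => ?_
      have := Real.cosh_pos (x i + y i)
      have := Real.cosh_pos (x i - y i)
      have := hA0 (i, false)
      have := hA0 (i, true)
      positivity
    intro σ
    rw [hΛ2, S_union]
    swap
    · rw [Finset.disjoint_left]
      intro v hv hv'
      rw [Finset.mem_biUnion] at hv hv'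
      obtain ⟨i, _, hi⟩ := hv
      obtain ⟨p, _, hp⟩ := hv'
      rw [hM, Finset.mem_singleton] at hi
      rw [hLm, hi] at hp
      exact hmidnot i p hp
    -- inner sum
    have hin : ∀ τ, S (Finset.univ.biUnion Lp) (fun τ => Real.exp (en K (n + 1) ω τ)) τ =
        ∏ i : Fin B, (A (i, false) * Real.exp (x i * (sgn (τ (lend (n + 1) ω)) *
            sgn (τ (mid n i ω)))) * (A (i, true) *
          Real.exp (y i * (sgn (τ (mid n i ω)) * sgn (τ (rend (n + 1) ω)))))) := by
      intro τ
      have h1 : (fun τ => Real.exp (en K (n + 1) ω τ)) =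
          fun τ => ∏ p ∈ (Finset.univ : Finset (Pos B)), Real.exp (en K n (upd ω n p) τ) := by
        funext τ
        rw [cell_split hF hE he, Real.exp_sum]
      rw [h1, S_prod Finset.univ Lp (fun p τ => Real.exp (en K n (upd ω n p) τ))
        (fun p => Q291.HEA.inner n (upd ω n p) ∪ {lend n (upd ω n p), rend n (upd ω n p)})]
      · rw [Fintype.prod_prod_type]
        refine Finset.prod_congr rfl fun i _ => ?_
        rw [Fintype.prod_bool, hA, hA]
        obtain ⟨h1, h2, h3, h4, -⟩ := hE he n ω i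
        rw [h1, h2, h3, h4]
        ring
      · intro p
        exact en_dep hE he K n (upd ω n p)
      · intro p q hpq v hv hv'
        rw [hLm] at hv'
        rcases hv with hv | hv | hv
        · exact hdisjp p q hpq v hv hv'
        · rw [hv] at hv'
          exact hlend p q hv'
        · rw [hv] at hv'
          exact hrend p q hv'
      · intro p q hpq
        rw [Finset.disjoint_left]
        intro v hv hv'
        rw [hLm] at hv hv'
        exact hdisjp p q hpq v hv hv'
    simp only [hin]
    rw [S_prod Finset.univ M (fun i τ => A (i, false) * Real.exp (x i *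
            (sgn (τ (lend (n + 1) ω)) * sgn (τ (mid n i ω)))) * (A (i, true) *
          Real.exp (y i * (sgn (τ (mid n i ω)) * sgn (τ (rend (n + 1) ω))))))
        (fun i => {mid n i ω, lend (n + 1) ω, rend (n + 1) ω})]
    · have heff : eff K (n + 1) ω = ∑ i : Fin B, F (x i) (y i) := rfl
      rw [heff, Finset.sum_mul, Real.exp_sum, ← Finset.prod_mul_distrib]
      refine Finset.prod_congr rfl fun i _ => ?_
      have hne1 : lend (n + 1) ω ≠ mid n i ω := fun h => hl (h ▸ hmidin i)
      have hne2 : rend (n + 1) ω ≠ mid n i ω := fun h => hr (h ▸ hmidin i)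
      rw [hM, S_single]
      simp only [Function.update_self, Function.update_of_ne hne1, Function.update_of_ne hne2]
      have hd := dec1 (x i) (y i) (sgn (σ (lend (n + 1) ω))) (sgn (σ (rend (n + 1) ω)))
        (sgn_sq _) (sgn_sq _)
      rw [mul_assoc (A (i, false) * A (i, true)), ← hd]
      have hs1 : sgn true = 1 := by simp [sgn]
      have hs2 : sgn false = -1 := by simp [sgn]
      rw [hs1, hs2]
      have e1 : Real.exp (x i * sgn (σ (lend (n + 1) ω)) + y i * sgn (σ (rend (n + 1) ω))) =
          Real.exp (x i * (sgn (σ (lend (n + 1) ω)) * 1)) *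
            Real.exp (y i * (1 * sgn (σ (rend (n + 1) ω)))) := by
        rw [← Real.exp_add]
        congr 1
        ring
      have e2 : Real.exp (-(x i * sgn (σ (lend (n + 1) ω)) + y i * sgn (σ (rend (n + 1) ω)))) =
          Real.exp (x i * (sgn (σ (lend (n + 1) ω)) * (-1))) *
            Real.exp (y i * ((-1) * sgn (σ (rend (n + 1) ω)))) := by
        rw [← Real.exp_add]
        congr 1
        ring
      rw [e1, e2]
      ring
    · intro i σ τ h
      simp only
      rw [h (mid n i ω) (by simp), h (lend (n + 1) ω) (by simp), h (rend (n + 1) ω) (by simp)]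
    · intro i j hij v hv hv'
      rw [hM, Finset.mem_singleton] at hv'
      rw [hv'] at hv
      rcases hv with hv | hv | hv
      · exact hij (hmidinj _ _ hv).symm
      · exact hl (hv ▸ hmidin j)
      · exact hr (hv ▸ hmidin j)
    · intro i j hij
      rw [hM, Finset.disjoint_singleton]
      exact fun h => hij (hmidinj _ _ h)

/-- Job DEC. -/
theorem t_DEC : P_HFIN → P_ENDS → P_DEC := by
  intro hF hE B _ e he K n ω Λ hΛ
  obtain ⟨A, hA0, hA⟩ := dec hF hE he K n ω Λ hΛ
  exact ⟨A, hA0, hA⟩

end Pool.Agent.Q102.HEA.DEC
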