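import Pool.Agent.Q291.HEA.Stm2

/-!
# Job DEP of project HEA: dependence on the boundary condition
-/

namespace Pool.Agent.Q102.HEA.DEP

open Pool.Agent.Q291.HEA

theorem glue_off {V : Type} {Λ : Finset V} (η : Λ → Bool) (σ : V → Bool) {v : V} (hv : v ∉ Λ) :
    glue Λ η σ v = σ v := by
  simp [glue, hv]

theorem glue_on {V : Type} {Λ : Finset V} (η : Λ → Bool) (σ : V → Bool) {v : V} (hv : v ∈ Λ) :
    glue Λ η σ v = η ⟨v, hv⟩ := by
  simp [glue, hv]

open Classical in
/-- Job DEP. -/
theorem t_DEP : P_HFIN → P_ENDS → P_DEP := by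
  intro hF hE B _ e he K n Λ hΛ S A hA σ σ' hs
  obtain ⟨-, -, -, hfin, hsub, -, -, -⟩ := hF (B := B) he
  obtain ⟨-, -, hl, hr, -⟩ := hfin n (orig : Bond B e)
  have hE7 := (hE he n (orig : Bond B e) 0).2.2.2.2.2.2
  have key : ∀ (η : Λ → Bool) (v : Site B e), (v = lend n orig ∨ v = rend n orig ∨
      v ∈ Pool.Agent.Q291.HEA.inner n (orig : Bond B e)) → glue Λ η σ v = glue Λ η σ' v := by
    intro η v hv
    by_cases hvL : v ∈ Λ
    · rw [glue_on η σ hvL, glue_on η σ' hvL]
    · rw [glue_off η σ hvL, glue_off η σ' hvL]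
      apply hs
      rcases hv with hv | hv | hv
      · right; left; exact hv
      · right; right; exact hv
      · exact absurd ((hΛ v).mpr hv) hvL
  have hen : ∀ η : Λ → Bool, energy (lend 0) (rend 0) K Λ (glue Λ η σ) =
      energy (lend 0) (rend 0) K Λ (glue Λ η σ') := by
    intro η
    unfold energy
    refine finsum_mem_congr rfl fun b hb => ?_
    have hb2 : b ∈ cellb n (orig : Bond B e) := by
      apply hsub n orig
      rcases hb with hb | hb
      · left; exact (hΛ _).mp hb
      · right; exact (hΛ _).mp hb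
    obtain ⟨h1, h2⟩ := hE7 b hb2
    rw [key η (lend 0 b) (by
      rcases h1 with h1 | h1
      · left; exact h1
      · right; right; exact h1), key η (rend 0 b) (by
      rcases h2 with h2 | h2
      · right; left; exact h2
      · right; right; exact h2)]
  have hind : ∀ η : Λ → Bool, A.indicator (fun _ => (1 : ℝ)) (glue Λ η σ) =
      A.indicator (fun _ => (1 : ℝ)) (glue Λ η σ') := by
    intro η
    have h : glue Λ η σ ∈ A ↔ glue Λ η σ' ∈ A := by
      apply hA
      intro v hv
      by_cases hvL : v ∈ Λ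
      · rw [glue_on η σ hvL, glue_on η σ' hvL]
      · rw [glue_off η σ hvL, glue_off η σ' hvL]
        apply hs
        rcases hv with hv | hv
        · left; exact hv
        · exact absurd hv hvL
    by_cases h' : glue Λ η σ ∈ A
    · rw [Set.indicator_of_mem h', Set.indicator_of_mem (h.mp h')]
    · rw [Set.indicator_of_notMem h', Set.indicator_of_notMem (fun h2 => h' (h.mpr h2))]
  unfold finiteVolume
  simp only [hen, hind]

end Pool.Agent.Q102.HEA.DEP
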