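import Pool.Agent.Q102.HEA.DEC
import Pool.Agent.Q102.HEA.DEP

/-!
# Job MEM of project HEA: one level
-/

namespace Pool.Agent.Q102.HEA.MEM

open Pool.Agent.Q291.HEA Pool.Agent.Q102.HEA.DEC

theorem decG {B : ℕ} [NeZero B] {e : ℕ → Bool} (hF : P_HFIN) (hE : P_ENDS) (he : Alt e)
    (K : Bond B e → ℝ) (n : ℕ) (ω : Bond B e) (Λ : Finset (Site B e))
    (hΛ : ∀ v, v ∈ Λ ↔ v ∈ Q291.HEA.inner (n + 1) ω) : ∃ C : Fin B → ℝ, (∀ i, 0 < C i) ∧
    ∀ (G : Fin B → Bool → ℝ) (σ : Site B e → Bool),
      S Λ (fun τ => Real.exp (en K (n + 1) ω τ) * ∏ i : Fin B, G i (τ (mid n i ω))) σ =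
        ∏ i : Fin B, (C i * (Real.exp (eff K n (upd ω n (i, false)) * sgn (σ (lend (n + 1) ω)) +
            eff K n (upd ω n (i, true)) * sgn (σ (rend (n + 1) ω))) * G i true +
          Real.exp (-(eff K n (upd ω n (i, false)) * sgn (σ (lend (n + 1) ω)) +
            eff K n (upd ω n (i, true)) * sgn (σ (rend (n + 1) ω)))) * G i false)) := by
  classical
  have ih := dec hF hE he K n
  set Lp : Pos B → Finset (Site B e) := fun p => ((hF he).2.2.2.1 n (upd ω n p)).2.1.toFinset
    with hLp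
  have hLm : ∀ p v, v ∈ Lp p ↔ v ∈ Q291.HEA.inner n (upd ω n p) := fun p v => Set.Finite.mem_toFinset _
  have hA := fun p => ih (upd ω n p) (Lp p) (hLm p)
  choose A hA0 hA using hA
  set M : Fin B → Finset (Site B e) := fun i => {mid n i ω} with hM
  have hΛ2 : Λ = (Finset.univ.biUnion M) ∪ (Finset.univ.biUnion Lp) := by
    ext v
    rw [hΛ, (hE he n ω 0).2.2.2.2.2.1 v, Finset.mem_union, Finset.mem_biUnion,
      Finset.mem_biUnion]
    constructor
    · rintro (⟨j, hj⟩ | ⟨p, hp⟩)
      · exact Or.inl ⟨j, Finset.mem_univ _, by rw [hM]; simp [hj]⟩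
      · exact Or.inr ⟨p, Finset.mem_univ _, (hLm p v).mpr hp⟩
    · rintro (⟨j, _, hj⟩ | ⟨p, _, hp⟩)
      · exact Or.inl ⟨j, by rw [hM] at hj; simpa using hj⟩
      · exact Or.inr ⟨p, (hLm p v).mp hp⟩
  have hmidlev : ∀ i, (mid n i ω).1.1 = n := fun i => rfl
  have hmidnot : ∀ i p, mid n i ω ∉ Q291.HEA.inner n (upd ω n p) := by
    intro i p h
    have := h.1
    rw [hmidlev] at this
    omega
  have hmidinj : ∀ i j, mid n i ω = mid n j ω → i = j := by
    intro i j h
    have := congrArg (fun v : Site B e => v.1.2.1) h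
    exact this
  have hsub : ∀ p v, v ∈ Q291.HEA.inner n (upd ω n p) → v ∈ Q291.HEA.inner (n + 1) ω := by
    intro p v hv
    rw [(hE he n ω 0).2.2.2.2.2.1 v]
    exact Or.inr ⟨p, hv⟩
  have hmidin : ∀ i, mid n i ω ∈ Q291.HEA.inner (n + 1) ω := by
    intro i
    rw [(hE he n ω 0).2.2.2.2.2.1]
    exact Or.inl ⟨i, rfl⟩
  obtain ⟨-, -, hl, hr, -⟩ := (hF he).2.2.2.1 (n + 1) ω
  have hdisjp : ∀ p q, p ≠ q → ∀ v, v ∈ Q291.HEA.inner n (upd ω n p) → v ∉ Q291.HEA.inner n (upd ω n q) := by
    intro p q hpq v hv hv'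
    apply hpq
    have h1 := hv.2 n le_rfl
    have h2 := hv'.2 n le_rfl
    simp only [upd, Function.update_self] at h1 h2
    rw [← h1, ← h2]
  -- the ends of the subcells
  have hlend : ∀ p q, lend n (upd ω n p) ∉ Q291.HEA.inner n (upd ω n q) := by
    rintro ⟨i, s⟩ q
    obtain ⟨h1, h2, h3, h4, -⟩ := hE he n ω i
    cases s
    · rw [h1]
      exact fun h => hl (hsub q _ h)
    · rw [h3]
      exact hmidnot i q
  have hrend : ∀ p q, rend n (upd ω n p) ∉ Q291.HEA.inner n (upd ω n q) := by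
    rintro ⟨i, s⟩ q
    obtain ⟨h1, h2, h3, h4, -⟩ := hE he n ω i
    cases s
    · rw [h2]
      exact hmidnot i q
    · rw [h4]
      exact fun h => hr (hsub q _ h)
  set x : Fin B → ℝ := fun i => eff K n (upd ω n (i, false)) with hx
  set y : Fin B → ℝ := fun i => eff K n (upd ω n (i, true)) with hy
  refine ⟨fun i => A (i, false) * A (i, true), fun i => mul_pos (hA0 _) (hA0 _), ?_⟩
  intro G σ
  rw [hΛ2, S_union]
  swap
  · rw [Finset.disjoint_left]
    intro v hv hv'
    rw [Finset.mem_biUnion] at hv hv'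
    obtain ⟨i, _, hi⟩ := hv
    obtain ⟨p, _, hp⟩ := hv'
    rw [hM, Finset.mem_singleton] at hi
    rw [hLm, hi] at hp
    exact hmidnot i p hp
  -- inner sum
  have hin : ∀ τ, S (Finset.univ.biUnion Lp) (fun τ => Real.exp (en K (n + 1) ω τ) *
      ∏ i : Fin B, G i (τ (mid n i ω))) τ =
      ∏ i : Fin B, ((A (i, false) * Real.exp (x i * (sgn (τ (lend (n + 1) ω)) *
          sgn (τ (mid n i ω)))) * (A (i, true) *
        Real.exp (y i * (sgn (τ (mid n i ω)) * sgn (τ (rend (n + 1) ω)))))) *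
          G i (τ (mid n i ω))) := by
    intro τ
    have h0 : (fun τ => Real.exp (en K (n + 1) ω τ) * ∏ i : Fin B, G i (τ (mid n i ω))) =
        fun τ => (∏ i : Fin B, G i (τ (mid n i ω))) * Real.exp (en K (n + 1) ω τ) := by
      funext τ
      ring
    rw [h0, S_mul_left (g := fun τ => ∏ i : Fin B, G i (τ (mid n i ω)))
      (D := Set.range fun i => mid n i ω), mul_comm, Finset.prod_mul_distrib]
    rotate_left
    · intro σ τ h
      refine Finset.prod_congr rfl fun i _ => ?_
      rw [h (mid n i ω) ⟨i, rfl⟩]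
    · rintro v ⟨i, rfl⟩ hv
      rw [Finset.mem_biUnion] at hv
      obtain ⟨p, _, hp⟩ := hv
      rw [hLm] at hp
      exact hmidnot i p hp
    congr 1
    have h1 : (fun τ => Real.exp (en K (n + 1) ω τ)) =
        fun τ => ∏ p ∈ (Finset.univ : Finset (Pos B)), Real.exp (en K n (upd ω n p) τ) := by
      funext τ
      rw [cell_split hF hE he, Real.exp_sum]
    rw [h1, S_prod Finset.univ Lp (fun p τ => Real.exp (en K n (upd ω n p) τ))
      (fun p => Q291.HEA.inner n (upd ω n p) ∪ {lend n (upd ω n p), rend n (upd ω n p)})]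
    · rw [Fintype.prod_prod_type]
      refine Finset.prod_congr rfl fun i _ => ?_
      rw [Fintype.prod_bool, hA, hA]
      obtain ⟨h1, h2, h3, h4, -⟩ := hE he n ω i
      rw [h1, h2, h3, h4]
      ring
    · intro p
      exact en_dep hE he K n (upd ω n p)
    · intro p q hpq v hv hv'
      rw [hLm] at hv'
      rcases hv with hv | hv | hv
      · exact hdisjp p q hpq v hv hv'
      · rw [hv] at hv'
        exact hlend p q hv'
      · rw [hv] at hv'
        exact hrend p q hv'
    · intro p q hpq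
      rw [Finset.disjoint_left]
      intro v hv hv'
      rw [hLm] at hv hv'
      exact hdisjp p q hpq v hv hv'
  simp only [hin]
  rw [S_prod Finset.univ M (fun i τ => (A (i, false) * Real.exp (x i *
          (sgn (τ (lend (n + 1) ω)) * sgn (τ (mid n i ω)))) * (A (i, true) *
        Real.exp (y i * (sgn (τ (mid n i ω)) * sgn (τ (rend (n + 1) ω)))))) * G i (τ (mid n i ω)))
      (fun i => {mid n i ω, lend (n + 1) ω, rend (n + 1) ω})]
  · refine Finset.prod_congr rfl fun i _ => ?_
    have hne1 : lend (n + 1) ω ≠ mid n i ω := fun h => hl (h ▸ hmidin i)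
    have hne2 : rend (n + 1) ω ≠ mid n i ω := fun h => hr (h ▸ hmidin i)
    rw [hM, S_single]
    simp only [Function.update_self, Function.update_of_ne hne1, Function.update_of_ne hne2]
    have hs1 : sgn true = 1 := by simp [sgn]
    have hs2 : sgn false = -1 := by simp [sgn]
    rw [hs1, hs2]
    have e1 : Real.exp (x i * sgn (σ (lend (n + 1) ω)) + y i * sgn (σ (rend (n + 1) ω))) =
        Real.exp (x i * (sgn (σ (lend (n + 1) ω)) * 1)) *
          Real.exp (y i * (1 * sgn (σ (rend (n + 1) ω)))) := by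
      rw [← Real.exp_add]
      congr 1
      ring
    have e2 : Real.exp (-(x i * sgn (σ (lend (n + 1) ω)) + y i * sgn (σ (rend (n + 1) ω)))) =
        Real.exp (x i * (sgn (σ (lend (n + 1) ω)) * (-1))) *
          Real.exp (y i * ((-1) * sgn (σ (rend (n + 1) ω)))) := by
      rw [← Real.exp_add]
      congr 1
      ring
    rw [e1, e2]
    ring
  · intro i σ τ h
    simp only
    rw [h (mid n i ω) (by simp), h (lend (n + 1) ω) (by simp), h (rend (n + 1) ω) (by simp)]
  · intro i j hij v hv hv'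
    rw [hM, Finset.mem_singleton] at hv'
    rw [hv'] at hv
    rcases hv with hv | hv | hv
    · exact hij (hmidinj _ _ hv).symm
    · exact hl (hv ▸ hmidin j)
    · exact hr (hv ▸ hmidin j)
  · intro i j hij
    rw [hM, Finset.disjoint_singleton]
    exact fun h => hij (hmidinj _ _ h)


theorem dec1G {B : ℕ} [NeZero B] {e : ℕ → Bool} (hF : P_HFIN) (hE : P_ENDS) (he : Alt e)
    (K : Bond B e → ℝ) (n : ℕ) (ω : Bond B e) (Λ : Finset (Site B e))
    (hΛ : ∀ v, v ∈ Λ ↔ v ∈ Q291.HEA.inner (n + 1) ω) (σ : Site B e → Bool) : ∃ C : ℝ, 0 < C ∧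
    ∀ g : Bool → ℝ,
      S Λ (fun τ => Real.exp (en K (n + 1) ω τ) * g (τ (mid n 0 ω))) σ =
        C * (Real.exp (eff K n (upd ω n (0, false)) * sgn (σ (lend (n + 1) ω)) +
            eff K n (upd ω n (0, true)) * sgn (σ (rend (n + 1) ω))) * g true +
          Real.exp (-(eff K n (upd ω n (0, false)) * sgn (σ (lend (n + 1) ω)) +
            eff K n (upd ω n (0, true)) * sgn (σ (rend (n + 1) ω)))) * g false) := by
  classical
  obtain ⟨C, hC0, hC⟩ := decG hF hE he K n ω Λ hΛ
  refine ⟨C 0 * ∏ i ∈ Finset.univ.erase (0 : Fin B),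
    (C i * (Real.exp (eff K n (upd ω n (i, false)) * sgn (σ (lend (n + 1) ω)) +
            eff K n (upd ω n (i, true)) * sgn (σ (rend (n + 1) ω))) +
          Real.exp (-(eff K n (upd ω n (i, false)) * sgn (σ (lend (n + 1) ω)) +
            eff K n (upd ω n (i, true)) * sgn (σ (rend (n + 1) ω)))))), ?_, fun g => ?_⟩
  · refine mul_pos (hC0 0) (Finset.prod_pos fun i _ => ?_)
    have := hC0 i
    positivity
  have h1 := hC (fun i s => if i = 0 then g s else 1) σ
  have h2 : (fun τ : Site B e → Bool => Real.exp (en K (n + 1) ω τ) *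
      ∏ i : Fin B, (if i = 0 then g (τ (mid n i ω)) else 1)) =
      fun τ => Real.exp (en K (n + 1) ω τ) * g (τ (mid n 0 ω)) := by
    funext τ
    rw [Finset.prod_ite_eq']
    simp
  rw [h2] at h1
  rw [h1, ← Finset.mul_prod_erase Finset.univ _ (Finset.mem_univ (0 : Fin B))]
  simp only [if_true]
  have h3 : ∏ x ∈ Finset.univ.erase (0 : Fin B),
      C x * ((Real.exp (eff K n (upd ω n (x, false)) * sgn (σ (lend (n + 1) ω)) +
        eff K n (upd ω n (x, true)) * sgn (σ (rend (n + 1) ω))) * if x = 0 then g true else 1) +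
      Real.exp (-(eff K n (upd ω n (x, false)) * sgn (σ (lend (n + 1) ω)) +
        eff K n (upd ω n (x, true)) * sgn (σ (rend (n + 1) ω)))) * if x = 0 then g false else 1) =
      ∏ i ∈ Finset.univ.erase (0 : Fin B),
    (C i * (Real.exp (eff K n (upd ω n (i, false)) * sgn (σ (lend (n + 1) ω)) +
            eff K n (upd ω n (i, true)) * sgn (σ (rend (n + 1) ω))) +
          Real.exp (-(eff K n (upd ω n (i, false)) * sgn (σ (lend (n + 1) ω)) +
            eff K n (upd ω n (i, true)) * sgn (σ (rend (n + 1) ω)))))) := by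
    refine Finset.prod_congr rfl fun i hi => ?_
    have hi0 : i ≠ 0 := Finset.ne_of_mem_erase hi
    simp [hi0]
  rw [h3]
  ring

theorem upd_orig {B : ℕ} [NeZero B] {e : ℕ → Bool} (n : ℕ) :
    upd (orig : Bond B e) n (0, e n) = orig := by
  apply Subtype.ext
  funext k
  by_cases hk : k = n
  · subst hk
    simp [upd, orig]
  · simp [upd, orig, Function.update_of_ne hk]

open Classical in
/-- Job MEM. -/
theorem t_MEM : P_HFIN → P_ENDS → P_DEC → P_GCO → P_MEM := by
  intro hF hE _ hG B _ e he K n Λ Λ' hΛ hΛ' A hA hdep σ x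
  obtain ⟨hcB, hcS, hlf, hfin, hsub, hcell, hmono, hex⟩ := hF (B := B) he
  have hsubΛ : Λ ⊆ Λ' := fun v hv => (hΛ' v).mpr (hmono (Nat.le_succ n) ((hΛ v).mp hv))
  obtain ⟨-, h⟩ := hG (lend 0) (rend 0) hlf K Λ Λ' hsubΛ σ A hA
  obtain ⟨-, -, hl, hr, -⟩ := hfin (n + 1) (orig : Bond B e)
  have hc : mid n 0 (orig : Bond B e) ∈ Λ' := by
    rw [hΛ', (hE he n (orig : Bond B e) 0).2.2.2.2.2.1]
    exact Or.inl ⟨0, rfl⟩
  have hl' : lend (n + 1) (orig : Bond B e) ∉ Λ' := fun h => hl ((hΛ' _).mp h)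
  have hr' : rend (n + 1) (orig : Bond B e) ∉ Λ' := fun h => hr ((hΛ' _).mp h)
  have hends : ∀ v, v ∈ ({lend n (orig : Bond B e), rend n orig} : Set (Site B e)) →
      v = mid n 0 orig ∨ v ∉ Λ' := by
    intro v hv
    obtain ⟨h1, h2, h3, h4, -⟩ := hE he n (orig : Bond B e) 0
    cases hen : e n with
    | false =>
      have hu := upd_orig (B := B) (e := e) n
      rw [hen] at hu
      rw [hu] at h1 h2
      rcases hv with hv | hv
      · right
        rw [hv, h1]
        exact hl'
      · left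
        rw [hv, h2]
    | true =>
      have hu := upd_orig (B := B) (e := e) n
      rw [hen] at hu
      rw [hu] at h3 h4
      rcases hv with hv | hv
      · left
        rw [hv, h3]
      · right
        rw [hv, h4]
        exact hr'
  have hfv : ∀ η : Λ' → Bool, finiteVolume (lend 0) (rend 0) K Λ (glue Λ' η σ) A =
      finiteVolume (lend 0) (rend 0) K Λ
        (Function.update σ (mid n 0 orig) (glue Λ' η σ (mid n 0 orig))) A := by
    intro η
    apply DEP.t_DEP hF hE he K n Λ hΛ {mid n 0 orig} A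
    · rw [← Set.insert_eq]
      exact hdep
    · intro v hv
      by_cases hvc : v = mid n 0 orig
      · rw [hvc, Function.update_self]
      · rw [Function.update_of_ne hvc]
        apply DEP.glue_off
        rcases hv with hv | hv
        · exact absurd hv hvc
        · exact (hends v hv).resolve_left hvc
  have hset : {b : Bond B e | lend 0 b ∈ Λ' ∨ rend 0 b ∈ Λ'} = cellb (n + 1) orig := by
    rw [← hcell (n + 1) orig (Nat.succ_pos n)]
    ext b
    simp only [Set.mem_setOf_eq, hΛ']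
  have hen : ∀ τ, energy (lend 0) (rend 0) K Λ' τ = en K (n + 1) (orig : Bond B e) τ := by
    intro τ
    unfold energy en
    rw [hset]
  obtain ⟨C, hC0, hC⟩ := dec1G hF hE he K n (orig : Bond B e) Λ' hΛ' σ
  have hnum := hC (fun s => finiteVolume (lend 0) (rend 0) K Λ
        (Function.update σ (mid n 0 orig) s) A)
  have hden := hC (fun _ => 1)
  rw [h]
  simp only [hfv, hen]
  have e1 : ∑ η : Λ' → Bool, Real.exp (en K (n + 1) (orig : Bond B e) (glue Λ' η σ)) *
      finiteVolume (lend 0) (rend 0) K Λ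
        (Function.update σ (mid n 0 orig) (glue Λ' η σ (mid n 0 orig))) A =
      S Λ' (fun τ => Real.exp (en K (n + 1) orig τ) * (fun s => finiteVolume (lend 0) (rend 0) K Λ
        (Function.update σ (mid n 0 orig) s) A) (τ (mid n 0 orig))) σ := rfl
  have e2 : ∑ η : Λ' → Bool, Real.exp (en K (n + 1) (orig : Bond B e) (glue Λ' η σ)) =
      S Λ' (fun τ => Real.exp (en K (n + 1) orig τ) * (fun _ => (1 : ℝ)) (τ (mid n 0 orig))) σ := by
    unfold S
    simp
  rw [e1, e2, hnum, hden]
  have hx : Real.tanh x = (Real.exp x - Real.exp (-x)) / (Real.exp x + Real.exp (-x)) := by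
    rw [Real.tanh_eq_sinh_div_cosh, Real.sinh_eq, Real.cosh_eq]
    field_simp
  rw [hx]
  have hp1 := Real.exp_pos x
  have hp2 := Real.exp_pos (-x)
  change C * (Real.exp x * _ + Real.exp (-x) * _) / (C * (Real.exp x * 1 + Real.exp (-x) * 1)) = _
  set E := Real.exp x
  set E' := Real.exp (-x)
  have hne : E + E' ≠ 0 := (add_pos hp1 hp2).ne'
  have hC0' := hC0.ne'
  field_simp
  ring

end Pool.Agent.Q102.HEA.MEM
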